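import Mathlib

set_option autoImplicit false

namespace Pool.Agent.Results.MP_17dcfb_an.BothQuestions

open MeasureTheory Set Filter Topology ENNReal

/-- Infinite paths of the stationary diagram with incidence matrix `F`. An edge is a triple
(source, range, index), the index being below `F range source`. -/
def Path (F : ℕ → ℕ → ℕ) : Type :=
  {x : ℕ → ℕ × ℕ × ℕ // ∀ i, (x i).2.2 < F (x i).2.1 (x i).1 ∧ (x i).2.1 = (x (i + 1)).1}

/-- The cylinder set of the finite path formed by the edges `0, …, n` of `x`. -/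
def cyl {F : ℕ → ℕ → ℕ} (x : Path F) (n : ℕ) : Set (Path F) := {y | ∀ i ≤ n, y.1 i = x.1 i}

/-- The sigma-algebra generated by the cylinder sets. -/
instance (F : ℕ → ℕ → ℕ) : MeasurableSpace (Path F) := .generateFrom {s | ∃ x n, s = cyl x n}

/-- Tail-invariant measures. -/
def TailInv {F : ℕ → ℕ → ℕ} (μ : Measure (Path F)) : Prop :=
  μ ≠ 0 ∧ ∀ (x y : Path F) (n : ℕ), (x.1 n).2.1 = (y.1 n).2.1 → μ (cyl x n) = μ (cyl y n)

/-- Entries of the powers of `F`. -/
noncomputable def pw (F : ℕ → ℕ → ℕ) : ℕ → ℕ → ℕ → ℝ≥0∞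
  | 0, i, j => if i = j then 1 else 0
  | n + 1, i, j => ∑' k, F i k * pw F n k j

/-- Each vertex meets finitely many edges, emits an edge and receives an edge. -/
def IsDiagram (F : ℕ → ℕ → ℕ) : Prop :=
  ∀ v, {w | F v w ≠ 0}.Finite ∧ {w | F w v ≠ 0}.Finite ∧ (∃ w, F v w ≠ 0) ∧ ∃ w, F w v ≠ 0

/-- The tridiagonal matrix of Q2, with indices shifted to start at `0`. -/
def F2 (i j : ℕ) : ℕ := if i = j then i + 2 else if i + 1 = j ∨ j + 1 = i then 1 else 0

theorem mcyl {F : ℕ → ℕ → ℕ} (x : Path F) (n : ℕ) : MeasurableSet (cyl x n) :=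
  MeasurableSpace.measurableSet_generateFrom ⟨x, n, rfl⟩

/-- The cone of nonnegative solutions of the recursion. -/
def C (p : ℕ → ℕ → ℝ) : Prop := (∀ n v, 0 ≤ p n v) ∧
  (∀ n, p n 0 = 2 * p (n + 1) 0 + p (n + 1) 1) ∧
  ∀ n v, p n (v + 1) = (v + 3) * p (n + 1) (v + 1) + p (n + 1) (v + 2) + p (n + 1) v

/-- Growth at rate `l` on the cone. -/
def G (l : ℝ) : Prop := ∀ p, C p → ∀ n v, l * p (n + 1) v ≤ p n v

theorem C.loop {p : ℕ → ℕ → ℝ} (h : C p) (n v : ℕ) : (v + 2) * p (n + 1) v ≤ p n v := by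
  cases v with
  | zero => have := h.2.1 n; have := h.1 (n + 1) 1; push_cast; linarith
  | succ v =>
    have := h.2.2 n v; have := h.1 (n + 1) v; have := h.1 (n + 1) (v + 2); push_cast; linarith

theorem C.up {p : ℕ → ℕ → ℝ} (h : C p) (n v m : ℕ) : p (n + m) (v + m) ≤ p n v := by
  induction m with
  | zero => exact le_rfl
  | succ m ih =>
    refine le_trans ?_ ih
    rw [← add_assoc, ← add_assoc]
    generalize v + m = w
    cases w with
    | zero => have := h.2.1 (n + m); have := h.1 (n + m + 1) 0; rw [zero_add]; linarith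
    | succ w =>
      have := h.2.2 (n + m) w
      have := h.1 (n + m + 1) w
      have : 0 ≤ (w + 3 : ℝ) * p (n + m + 1) (w + 1) := mul_nonneg (by positivity) (h.1 _ _)
      linarith

theorem C.down {p : ℕ → ℕ → ℝ} (h : C p) (v m : ℕ) : ∀ n, p (n + m) v ≤ p n (v + m) := by
  induction m with
  | zero => exact fun _ => le_rfl
  | succ m ih =>
    intro n
    have h1 := ih (n + 1)
    have := h.2.2 n (v + m)
    have := h.1 (n + 1) (v + m + 2)
    have : 0 ≤ ((v + m : ℕ) + 3 : ℝ) * p (n + 1) (v + m + 1) := mul_nonneg (by positivity) (h.1 _ _)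
    rw [show n + (m + 1) = n + 1 + m by ring, ← add_assoc]
    linarith

theorem C.anti {p : ℕ → ℕ → ℝ} (h : C p) (n v m : ℕ) : p (n + m) v ≤ p n v := by
  induction m with
  | zero => exact le_rfl
  | succ m ih =>
    have := h.loop (n + m) v
    have := h.1 (n + m + 1) v
    rw [← add_assoc]
    nlinarith [v.cast_nonneg (α := ℝ)]

theorem step (J : ℕ) (hJ : 1 ≤ J) : ∃ δ > 0, ∀ l : ℝ, l ≤ J → G l → G (l + δ) := by
  have hJ' : (1 : ℝ) ≤ J := by exact_mod_cast hJ
  set K : ℝ := J ^ (2 * J) * (1 + 2 * J) with hK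
  have hK1 : 1 ≤ K := one_le_mul_of_one_le_of_one_le (one_le_pow₀ hJ') (by linarith)
  refine ⟨1 / K, by positivity, fun l hl hG p hp n v => ?_⟩
  have h0 := hp.1 (n + 1) v
  rcases le_total J v with h | h
  · have h1 : (J : ℝ) ≤ v := by exact_mod_cast h
    have h2 : 1 / K ≤ 1 := div_le_self zero_le_one hK1
    exact (mul_le_mul_of_nonneg_right (by linarith) h0).trans (hp.loop n v)
  obtain ⟨m, rfl⟩ := Nat.exists_eq_add_of_le h
  set d : ℕ → ℕ → ℝ := fun n v => p n v - l * p (n + 1) v with hd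
  have hC : C d := ⟨fun n v => sub_nonneg.2 (hG p hp n v), fun n => by
    simp only [hd]; rw [hp.2.1 n, hp.2.1 (n + 1)]; ring, fun n v => by
    simp only [hd]; rw [hp.2.2 n, hp.2.2 (n + 1)]; ring⟩
  have d0 := hC.1 n v
  have h1 : p (n + 1 + 2 * m) v ≤ d n v := by
    have a := hC.up n v m
    have b := hp.loop (n + m) (v + m)
    have c := hp.down v m (n + m + 1)
    have e := hp.1 (n + m + 1) (v + m)
    rw [show n + 1 + 2 * m = n + m + 1 + m by ring]
    simp only [hd] at a ⊢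
    nlinarith
  have h2 : ∀ k, p (n + 1) v ≤ ((v + m : ℕ) : ℝ) ^ k * (p (n + 1 + k) v + k * d n v) := by
    intro k
    induction k with
    | zero => simp
    | succ k ih =>
      refine ih.trans ?_
      rw [pow_succ, mul_assoc]
      refine mul_le_mul_of_nonneg_left ?_ (by positivity)
      have a := hC.anti n v (1 + k)
      have b := hp.1 (n + 1 + k + 1) v
      have c : 0 ≤ (k + 1 : ℝ) * d n v := by positivity
      rw [← add_assoc] at a
      simp only [hd] at a
      rw [← add_assoc, Nat.cast_succ]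
      nlinarith
  have h3 : p (n + 1) v ≤ K * d n v := by
    refine (h2 (2 * m)).trans ?_
    rw [hK, mul_assoc]
    refine mul_le_mul (pow_le_pow_right₀ hJ' (by omega)) ?_ (add_nonneg (hp.1 _ _) (by positivity))
      (by positivity)
    push_cast
    nlinarith [v.cast_nonneg (α := ℝ)]
  have h4 : 1 / K * p (n + 1) v ≤ d n v := by
    rw [one_div, inv_mul_le_iff₀ (by positivity)]; exact h3
  simp only [hd] at h4
  linarith

theorem C.zero {p : ℕ → ℕ → ℝ} (hp : C p) (n v : ℕ) : p n v = 0 := by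
  have hG : ∀ J : ℕ, 1 ≤ J → G J := by
    intro J hJ
    obtain ⟨δ, hδ, h⟩ := step J hJ
    have : ∀ t : ℕ, G (min J (t * δ)) := by
      intro t
      induction t with
      | zero => intro p hp n v; simpa using hp.1 n v
      | succ t ih =>
        intro p hp n v
        refine le_trans (mul_le_mul_of_nonneg_right ?_ (hp.1 _ _))
          (h _ (min_le_left _ _) ih p hp n v)
        rw [← min_add_add_right, Nat.cast_succ, add_one_mul]
        exact min_le_min (by linarith) le_rfl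
    obtain ⟨t, ht⟩ := exists_nat_ge (J / δ)
    have := this t
    rwa [min_eq_left ((div_le_iff₀ hδ).1 ht)] at this
  have h0 : ∀ n v, p (n + 1) v = 0 := by
    intro n v
    by_contra h
    have h1 := (hp.1 (n + 1) v).lt_of_ne' h
    obtain ⟨t, ht⟩ := exists_nat_gt (p n v / p (n + 1) v)
    have := hG (t + 1) (by omega) p hp n v
    rw [div_lt_iff₀ h1] at ht
    push_cast at this
    linarith
  cases v with
  | zero => simp [hp.2.1 n, h0]
  | succ v => simp [hp.2.2 n, h0]

/-- The path looping at `v`. -/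
def st (v : ℕ) : Path F2 := ⟨fun _ => (v, v, 0), fun _ => by simp [F2]⟩

theorem q2 (μ : Measure (Path F2)) (hf : ∀ x n, μ (cyl x n) ≠ ∞) : ¬ TailInv μ := by
  rintro ⟨h0, h⟩
  have hrec : ∀ n v, μ (cyl (st v) n) =
      ∑ w ∈ Finset.range (v + 2), F2 w v * μ (cyl (st w) (n + 1)) := by
    intro n v
    set A : (Σ _ : ℕ, ℕ) → Set (Path F2) := fun e => cyl (st v) n ∩ {y | y.1 (n + 1) = (v, e.1, e.2)}
      with hA
    set s := (Finset.range (v + 2)).sigma fun w => Finset.range (F2 w v) with hs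
    have h1 : ∀ e ∈ s, ∃ z : Path F2, A e = cyl z (n + 1) ∧ (z.1 (n + 1)).2.1 = e.1 := by
      rintro ⟨w, k⟩ he
      simp only [hs, Finset.mem_sigma, Finset.mem_range] at he
      refine ⟨⟨fun i => if i ≤ n then (v, v, 0) else if i = n + 1 then (v, w, k) else (w, w, 0),
        fun i => ?_⟩, ?_, by simp⟩
      · beta_reduce
        split_ifs <;> first | omega | (simp [he.2]; done) | simp [F2]
      · ext y
        simp only [hA, cyl, st, mem_inter_iff, mem_ofPred_eq]
        constructor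
        · rintro ⟨a, b⟩ i hi
          split_ifs with c d
          exacts [a i c, d ▸ b, by omega]
        · exact fun a => ⟨fun i hi => by simpa [hi] using a i (by omega), by simpa using a (n + 1) le_rfl⟩
    have h2 : cyl (st v) n = ⋃ e ∈ s, A e := by
      refine Subset.antisymm (fun y hy => ?_) (iUnion₂_subset fun e _ => inter_subset_left)
      have a : (y.1 (n + 1)).1 = v := by rw [← (y.2 n).2, hy n le_rfl]; rfl
      have b := (y.2 (n + 1)).1
      rw [a] at b
      refine mem_iUnion₂.2 ⟨⟨(y.1 (n + 1)).2.1, (y.1 (n + 1)).2.2⟩, ?_, hy, by simp [← a]⟩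
      simp only [hs, Finset.mem_sigma, Finset.mem_range]
      refine ⟨?_, b⟩
      unfold F2 at b
      split_ifs at b <;> omega
    rw [h2, measure_biUnion_finset]
    · rw [Finset.sum_congr rfl (g := fun e => μ (cyl (st e.1) (n + 1))) fun e he => by
        obtain ⟨z, a, b⟩ := h1 e he
        rw [a]
        exact h _ _ _ b]
      simp [hs, Finset.sum_sigma]
    · rintro ⟨w, k⟩ - ⟨w', k'⟩ - hne
      refine disjoint_left.2 fun y a b => hne ?_
      have := a.2.symm.trans b.2
      simp only [Prod.mk.injEq] at this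
      rw [this.2.1, this.2.2]
    · intro e he
      obtain ⟨z, a, -⟩ := h1 e he
      exact a ▸ mcyl _ _
  have hr : ∀ n v, μ.real (cyl (st v) n) =
      ∑ w ∈ Finset.range (v + 2), F2 w v * μ.real (cyl (st w) (n + 1)) := by
    intro n v
    rw [measureReal_def, hrec, toReal_sum fun w _ => mul_ne_top (natCast_ne_top _) (hf _ _)]
    simp [measureReal_def]
  have hC : C fun n v => μ.real (cyl (st v) n) := by
    refine ⟨fun _ _ => measureReal_nonneg, fun n => ?_, fun n v => ?_⟩
    · simp only; rw [hr]; simp [Finset.sum_range_succ, F2]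
    · simp only
      rw [hr, Finset.sum_range_succ, Finset.sum_range_succ, Finset.sum_range_succ,
        Finset.sum_eq_zero fun w hw => by
          rw [Finset.mem_range] at hw
          rw [F2, if_neg (by omega), if_neg (by omega), Nat.cast_zero, zero_mul]]
      simp [F2]
      ring
  apply h0
  rw [← Measure.measure_univ_eq_zero]
  refine measure_mono_null (t := ⋃ e, {y : Path F2 | y.1 0 = e}) (fun y _ => mem_iUnion.2 ⟨_, rfl⟩)
    (measure_iUnion_null fun e => ?_)
  rcases eq_empty_or_nonempty {y : Path F2 | y.1 0 = e} with a | ⟨y, hy⟩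
  · rw [a, measure_empty]
  refine measure_mono_null (t := cyl y 0) (fun z hz i hi => ?_) ?_
  · rw [Nat.le_zero.1 hi, hz, hy]
  · rw [h y (st (y.1 0).2.1) 0 rfl]
    exact (measureReal_eq_zero_iff (hf _ _)).1 (hC.zero 0 _)

/-- The incidence matrix of the example for Q1. -/
def F1 (r s : ℕ) : ℕ :=
  if s % 2 = 0 then (if r = s + 1 ∨ r = s + 2 then 1 else 0)
  else if r = s then s else if r + 2 = s ∨ (s = 1 ∧ r = 0) then 1 else 0

theorem pw_add (F : ℕ → ℕ → ℕ) (m n k j : ℕ) : ∀ i, pw F m i k * pw F n k j ≤ pw F (m + n) i j := by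
  induction m with
  | zero => intro i; rw [pw, zero_add]; split_ifs with h <;> simp [*]
  | succ m ih =>
    intro i
    rw [add_right_comm, pw, pw, ← ENNReal.tsum_mul_right]
    exact ENNReal.tsum_le_tsum fun l => by rw [mul_assoc]; exact mul_le_mul_right (ih l) _

theorem pw_one (F : ℕ → ℕ → ℕ) (i j : ℕ) : (F i j : ℝ≥0∞) ≤ pw F 1 i j :=
  le_trans (by simp [pw]) (ENNReal.le_tsum j)

theorem pw_loop (F : ℕ → ℕ → ℕ) (i n : ℕ) : (F i i : ℝ≥0∞) ^ n ≤ pw F n i i := by
  induction n with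
  | zero => simp [pw]
  | succ n ih =>
    rw [pow_succ]
    exact (mul_le_mul' ih (pw_one F i i)).trans (pw_add F n 1 i i i)

theorem reach (i j : ℕ) : ∃ n, 1 ≤ pw F1 n i j := by
  have tr : ∀ i k j, (∃ n, 1 ≤ pw F1 n i k) → (∃ n, 1 ≤ pw F1 n k j) → ∃ n, 1 ≤ pw F1 n i j :=
    fun i k j ⟨m, a⟩ ⟨n, b⟩ => ⟨m + n, (one_le_mul a b).trans (pw_add F1 m n k j i)⟩
  have one : ∀ i j, F1 i j = 1 → ∃ n, 1 ≤ pw F1 n i j := fun i j h =>
    ⟨1, by simpa [h] using pw_one F1 i j⟩
  have a : ∀ t, ∃ n, 1 ≤ pw F1 n (2 * t) 0 := by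
    intro t
    induction t with
    | zero => exact ⟨0, by simp [pw]⟩
    | succ t ih => exact tr _ _ _ (one _ _ (by simp [F1, mul_add])) ih
  have b : ∀ t, ∃ n, 1 ≤ pw F1 n 0 (2 * t + 1) := by
    intro t
    induction t with
    | zero => exact one _ _ (by simp [F1])
    | succ t ih => exact tr _ _ _ ih (one _ _ (by unfold F1; split_ifs <;> omega))
  refine tr _ 0 _ ?_ ?_
  · obtain ⟨t, rfl | rfl⟩ := Nat.even_or_odd' i
    exacts [a t, tr _ _ _ (one _ _ (by simp [F1])) (a t)]
  · obtain ⟨t, rfl | rfl⟩ := Nat.even_or_odd' j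
    exacts [tr _ _ _ (b t) (one _ _ (by simp [F1])), b t]

theorem via (i j t : ℕ) : ∃ c, ∀ n, ((2 * t + 1 : ℕ) : ℝ≥0∞) ^ n ≤ pw F1 (c + n) i j := by
  obtain ⟨a, ha⟩ := reach i (2 * t + 1)
  obtain ⟨b, hb⟩ := reach (2 * t + 1) j
  refine ⟨a + b, fun n => ?_⟩
  have h := pw_loop F1 (2 * t + 1) n
  rw [show F1 (2 * t + 1) (2 * t + 1) = 2 * t + 1 by simp [F1]] at h
  rw [add_right_comm]
  refine le_trans ?_ (pw_add F1 (a + n) b (2 * t + 1) j i)
  refine le_trans ?_ (mul_le_mul' (pw_add F1 a n (2 * t + 1) _ i) hb)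
  rw [mul_one]
  exact (one_mul _).ge.trans (mul_le_mul' ha h)

/-- The paths that run along the even vertices from level `m` on, starting at vertex `0`. -/
def R (m : ℕ) : Set (Path F1) := {y | ∀ i, y.1 (m + i) = (2 * i, 2 * i + 2, 0)}

theorem R_tail {m n : ℕ} {y z : Path F1} (hy : y ∈ R m) (h : ∀ i, n < i → z.1 i = y.1 i) :
    z ∈ R m := by
  have : ∀ t i, n < m + i + t → z.1 (m + i) = (2 * i, 2 * i + 2, 0) := by
    intro t
    induction t with
    | zero => exact fun i hi => (h _ hi).trans (hy i)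
    | succ t ih =>
      intro i hi
      have a := ih (i + 1) (by omega)
      obtain ⟨b, c⟩ := z.2 (m + i)
      rw [add_assoc, a] at c
      generalize z.1 (m + i) = e at b c
      obtain ⟨s, r, k⟩ := e
      simp only [F1, Prod.mk.injEq] at b c ⊢
      split_ifs at b <;> omega
  exact fun i => this (n + 1) i (by omega)

theorem R_fin (m : ℕ) : (R m).Finite := by
  refine Finite.of_injOn (f := fun y (i : Fin m) => y.1 i) (t := {f | ∀ i, f i ∈
    Iic (2 * m, 2 * m, 2 * m)}) (fun y hy i => ?_) (fun y hy z hz h => ?_)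
    (Finite.pi' fun _ => finite_Iic _)
  · have : ∀ t i, i + t = m → (y.1 i).1 ≤ 2 * t := by
      intro t
      induction t with
      | zero => rintro i rfl; simpa using congrArg Prod.fst (hy 0)
      | succ t ih =>
        intro i hi
        have a := ih (i + 1) (by omega)
        obtain ⟨b, c⟩ := y.2 i
        unfold F1 at b
        split_ifs at b <;> omega
    have a := this (m - i) i (by omega)
    have b := this (m - (i + 1)) (i + 1) (by omega)
    obtain ⟨c, d⟩ := y.2 i
    have := i.2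
    refine ⟨show (y.1 i).1 ≤ 2 * m by omega, show (y.1 i).2.1 ≤ 2 * m by omega,
      show (y.1 i).2.2 ≤ 2 * m from ?_⟩
    unfold F1 at c
    split_ifs at c <;> omega
  · refine Subtype.ext (funext fun i => ?_)
    rcases lt_or_ge i m with a | a
    · exact congrFun h ⟨i, a⟩
    · obtain ⟨j, rfl⟩ := Nat.exists_eq_add_of_le a
      rw [hy j, hz j]

theorem R_cons {m : ℕ} {y : Path F1} (hy : y ∈ R m) (s k : ℕ) (h : k < F1 (y.1 0).1 s) :
    ∃ z ∈ R (m + 1), z.1 0 = (s, (y.1 0).1, k) ∧ ∀ i, z.1 (i + 1) = y.1 i :=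
  ⟨⟨fun i => Nat.casesOn i (s, (y.1 0).1, k) y.1, fun i => by
    cases i with
    | zero => exact ⟨h, rfl⟩
    | succ i => exact y.2 i⟩, fun i => by rw [add_right_comm]; exact hy i, rfl, fun _ => rfl⟩

theorem R_ext (n : ℕ) : ∀ x : Path F1, ∃ m, ∃ z ∈ R m, (z.1 0).1 = (x.1 0).1 ∧
    ∀ i < n, z.1 i = x.1 i := by
  induction n with
  | zero =>
    have one : ∀ a s, F1 a s = 1 → (∃ m, ∃ z ∈ R m, (z.1 0).1 = a) →
        ∃ m, ∃ z ∈ R m, (z.1 0).1 = s := by
      rintro a s h ⟨m, y, hy, rfl⟩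
      obtain ⟨z, hz, a, -⟩ := R_cons hy s 0 (by omega)
      exact ⟨_, z, hz, by rw [a]⟩
    have b : ∀ t, ∃ m, ∃ z ∈ R m, (z.1 0).1 = 2 * t + 1 := by
      intro t
      induction t with
      | zero => exact one 0 _ (by simp [F1]) ⟨0, ⟨fun i => (2 * i, 2 * i + 2, 0), fun i => by
          simp [F1, mul_add]⟩, fun i => by simp, rfl⟩
      | succ t ih => exact one _ _ (by unfold F1; split_ifs <;> omega) ih
    intro x
    simp only [Nat.not_lt_zero, IsEmpty.forall_iff, implies_true, and_true]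
    obtain ⟨t, h | h⟩ := Nat.even_or_odd' (x.1 0).1 <;> rw [h]
    exacts [one _ _ (by simp [F1]) (b t), b t]
  | succ n ih =>
    intro x
    obtain ⟨m, y, hy, a, b⟩ := ih ⟨fun i => x.1 (i + 1), fun i => x.2 (i + 1)⟩
    have c : (y.1 0).1 = (x.1 0).2.1 := a.trans (x.2 0).2.symm
    obtain ⟨z, hz, d, e⟩ := R_cons hy (x.1 0).1 (x.1 0).2.2 (c ▸ (x.2 0).1)
    refine ⟨_, z, hz, by rw [d], fun i hi => ?_⟩
    cases i with
    | zero => rw [d, c]
    | succ i => rw [e, b i (by omega)]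

theorem swap (x y : Path F1) (n m : ℕ) (h : (x.1 n).2.1 = (y.1 n).2.1) :
    (cyl x n ∩ R m).encard ≤ (cyl y n ∩ R m).encard := by
  classical
  have hv : ∀ z ∈ cyl x n, ∃ w : Path F1, ∀ i, w.1 i = if i ≤ n then y.1 i else z.1 i := by
    refine fun z hz => ⟨⟨fun i => if i ≤ n then y.1 i else z.1 i, fun i => ?_⟩, fun _ => rfl⟩
    beta_reduce
    split_ifs with a b b
    · exact y.2 i
    · obtain rfl : i = n := by omega
      exact ⟨(y.2 i).1, by rw [← h, ← hz i le_rfl, (z.2 i).2]⟩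
    · omega
    · exact z.2 i
  have : Nonempty (Path F1) := ⟨x⟩
  choose! f hf using hv
  refine encard_le_encard_of_injOn (f := f) (fun z hz => ⟨fun i hi => by rw [hf z hz.1, if_pos hi],
    R_tail (n := n) hz.2 fun i hi => by rw [hf z hz.1, if_neg (by omega)]⟩) fun z hz w hw e => ?_
  refine Subtype.ext (funext fun i => ?_)
  by_cases a : i ≤ n
  · rw [hz.1 i a, hw.1 i a]
  · have b := hf z hz.1 i
    rw [e, hf w hw.1, if_neg a, if_neg a] at b
    exact b.symm

instance : MeasurableSingletonClass (Path F1) := ⟨fun x => by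
  have : {x} = ⋂ n, cyl x n := by
    ext y
    simp only [mem_singleton_iff, mem_iInter]
    exact ⟨fun h n i _ => by rw [h], fun h => Subtype.ext (funext fun i => h i i le_rfl)⟩
  rw [this]
  exact MeasurableSet.iInter (mcyl x)⟩

theorem result :
    (∃ F : ℕ → ℕ → ℕ, IsDiagram F ∧ (∀ i j, ∃ n, 0 < pw F n i j) ∧
      (∀ i d : ℕ, (∀ n, 0 < pw F n i i → d ∣ n) → d = 1) ∧
      (∀ i j, Tendsto (fun n : ℕ => pw F n i j ^ (1 / n : ℝ)) atTop (𝓝 ∞)) ∧
      ∃ μ : Measure (Path F), IsFiniteMeasure μ ∧ TailInv μ ∧ ∀ x n, 0 < μ (cyl x n)) ∧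
    ∀ μ : Measure (Path F2), (∀ x n, μ (cyl x n) ≠ ∞) → ¬ TailInv μ := by
  refine ⟨⟨F1, fun v => ⟨(finite_Iic (v + 2)).subset fun w h => ?_,
    (finite_Iic (v + 2)).subset fun w h => ?_, ?_, ?_⟩,
    fun i j => (reach i j).imp fun n h => zero_lt_one.trans_le h, fun i d h => ?_,
    fun i j => ?_, ?_⟩, q2⟩
  · simp only [mem_ofPred_eq, F1, mem_Iic] at h ⊢
    split_ifs at h <;> omega
  · simp only [mem_ofPred_eq, F1, mem_Iic] at h ⊢
    split_ifs at h <;> omega
  · obtain ⟨t, rfl | rfl⟩ := Nat.even_or_odd' v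
    · cases t with
      | zero => exact ⟨1, by simp [F1]⟩
      | succ t => exact ⟨2 * t, by simp [F1, mul_add]⟩
    · exact ⟨2 * t + 1, by simp [F1]⟩
  · refine ⟨if v % 2 = 0 then v + 1 else v, ?_⟩
    unfold F1
    split_ifs <;> omega
  · obtain ⟨c, hc⟩ := via i i 0
    have a := h _ (lt_of_lt_of_le (by simp) (hc 0))
    have b := h _ (lt_of_lt_of_le (by simp) (hc 1))
    exact Nat.dvd_one.1 ((Nat.dvd_add_right a).1 b)
  · refine tendsto_nhds_top_iff_nat.2 fun M => ?_
    obtain ⟨c, hc⟩ := via i j ((M + 1) ^ 2)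
    filter_upwards [eventually_ge_atTop (2 * c + 1)] with n hn
    obtain ⟨t, rfl⟩ : ∃ t, n = c + t := ⟨n - c, by omega⟩
    have a : (M + 1) ^ (c + t) ≤ (2 * (M + 1) ^ 2 + 1) ^ t :=
      (Nat.pow_le_pow_right (by omega) (by omega : c + t ≤ 2 * t)).trans
        ((pow_mul _ _ _).le.trans (Nat.pow_le_pow_left (by omega) _))
    have b : ((M + 1 : ℕ) : ℝ≥0∞) ^ (c + t) ≤ pw F1 (c + t) i j :=
      le_trans (by exact_mod_cast a) (hc t)
    refine lt_of_lt_of_le ?_ (ENNReal.rpow_le_rpow b (by positivity))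
    rw [one_div, ENNReal.pow_rpow_inv_natCast (by omega)]
    exact_mod_cast M.lt_succ_self
  set μ : Measure (Path F1) := Measure.sum fun m =>
    (2⁻¹ ^ m * (Measure.count (R m))⁻¹ : ℝ≥0∞) • Measure.count.restrict (R m) with hμ
  have hpos : ∀ x n, 0 < μ (cyl x n) := by
    intro x n
    obtain ⟨m, z, hz, -, a⟩ := R_ext (n + 1) x
    refine lt_of_lt_of_le ?_ (Measure.le_sum _ m _)
    rw [Measure.smul_apply, Measure.restrict_apply (mcyl _ _), smul_eq_mul, pos_iff_ne_zero]
    refine mul_ne_zero (mul_ne_zero (by simp) ?_)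
      (Measure.count_ne_zero ⟨z, fun i hi => a i (by omega), hz⟩)
    exact ENNReal.inv_ne_zero.2 (Measure.count_apply_lt_top.2 (R_fin m)).ne
  refine ⟨μ, ⟨?_⟩, ⟨fun h => ?_, fun x y n h => ?_⟩, hpos⟩
  · rw [hμ, Measure.sum_apply _ MeasurableSet.univ]
    refine lt_of_le_of_lt (ENNReal.tsum_le_tsum (g := fun m => 2⁻¹ ^ m) fun m => ?_) (by simp)
    rw [Measure.smul_apply, Measure.restrict_apply_univ, smul_eq_mul, mul_assoc]
    exact mul_le_of_le_one_right' (ENNReal.inv_mul_le_one _)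
  · obtain ⟨x⟩ : Nonempty (Path F1) :=
      ⟨⟨fun i => (2 * i, 2 * i + 2, 0), fun i => by simp [F1, mul_add]⟩⟩
    simpa [h] using hpos x 0
  · rw [hμ, Measure.sum_apply _ (mcyl _ _), Measure.sum_apply _ (mcyl _ _)]
    refine tsum_congr fun m => ?_
    rw [Measure.smul_apply, Measure.smul_apply, Measure.restrict_apply (mcyl _ _),
      Measure.restrict_apply (mcyl _ _),
      Measure.count_apply ((mcyl _ _).inter (R_fin m).measurableSet),
      Measure.count_apply ((mcyl _ _).inter (R_fin m).measurableSet),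
      le_antisymm (swap x y n m h) (swap y x n m h.symm)]

end Pool.Agent.Results.MP_17dcfb_an.BothQuestions
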